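import Mathlib

set_option autoImplicit false

namespace Pool.Agent.Results.MP_a1107e_nt.AExponentLower

open Filter

/-- Every admissible exponent in the Hall-Lang inequality is at least `15 / 2`. -/
theorem result (K M : ℝ)
    (h : ∀ A B x y : ℤ, 4 * A ^ 3 + 27 * B ^ 2 ≠ 0 → y ^ 2 = x ^ 3 + A * x + B →
      ((max |x| |y| : ℤ) : ℝ) ≤ K * ((max |A| |B| : ℤ) : ℝ) ^ M) :
    15 / 2 ≤ M := by
  by_contra hM
  push Not at hM
  set N := max M 0 with hN
  have hN0 : 0 ≤ N := le_max_right _ _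
  have hN1 : N < 15 / 2 := max_lt hM (by norm_num)
  have key : ∀ s : ℕ, 5 ≤ s → (s : ℝ) ^ (15 - 2 * N) ≤ |K| * 576 ^ N := by
    intro s hs
    have hz : (5 : ℤ) ≤ (s : ℤ) := by exact_mod_cast hs
    set u : ℤ := (s : ℤ) ^ 2 with hu
    have hu25 : 25 ≤ u := by nlinarith
    have hd : 4 * (-32 * u - 112) ^ 3 + 27 * (192 * u + 384) ^ 2 ≠ 0 := by
      have : 4 * (-32 * u - 112) ^ 3 + 27 * (192 * u + 384) ^ 2 =
          -(131072 * u ^ 3 + 380928 * u ^ 2 + 835584 * u + 1638400) := by ring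
      rw [this]
      have : 0 < 131072 * u ^ 3 + 380928 * u ^ 2 + 835584 * u + 1638400 := by positivity
      omega
    have h1 := h (-32 * u - 112) (192 * u + 384)
      (u ^ 5 + 4 * u ^ 4 + 10 * u ^ 3 + 20 * u ^ 2 + 17 * u + 8)
      ((s : ℤ) * (u ^ 7 + 6 * u ^ 6 + 21 * u ^ 5 + 56 * u ^ 4 + 99 * u ^ 3 + 126 * u ^ 2 +
        111 * u + 36)) hd (by rw [mul_pow, ← hu]; ring)
    have hH : max |-32 * u - 112| |192 * u + 384| = 192 * u + 384 := by
      rw [abs_of_neg (by omega), abs_of_pos (by omega)]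
      exact max_eq_right (by omega)
    rw [hH] at h1
    have hy : (s : ℤ) ^ 15 ≤ max |u ^ 5 + 4 * u ^ 4 + 10 * u ^ 3 + 20 * u ^ 2 + 17 * u + 8|
        |(s : ℤ) * (u ^ 7 + 6 * u ^ 6 + 21 * u ^ 5 + 56 * u ^ 4 + 99 * u ^ 3 + 126 * u ^ 2 +
        111 * u + 36)| := by
      refine le_trans (le_trans ?_ (le_abs_self _)) (le_max_right _ _)
      have e : (s : ℤ) ^ 15 = (s : ℤ) * u ^ 7 := by rw [hu]; ring
      rw [e]
      have hup : 0 < u := by omega
      have : 0 ≤ 6 * u ^ 6 + 21 * u ^ 5 + 56 * u ^ 4 + 99 * u ^ 3 + 126 * u ^ 2 +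
        111 * u + 36 := by positivity
      exact mul_le_mul_of_nonneg_left (by linarith) (by omega)
    have hy' : (s : ℝ) ^ 15 ≤ K * ((192 * u + 384 : ℤ) : ℝ) ^ M :=
      le_trans (by exact_mod_cast hy) h1
    have hsr : (5 : ℝ) ≤ s := by exact_mod_cast hs
    have hsp : (0 : ℝ) < s := by linarith
    have hHr : ((192 * u + 384 : ℤ) : ℝ) = 192 * (s : ℝ) ^ 2 + 384 := by
      rw [hu]; push_cast; ring
    rw [hHr] at hy'
    have b1 : (1 : ℝ) ≤ 192 * (s : ℝ) ^ 2 + 384 := by nlinarith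
    have b2 : (192 * (s : ℝ) ^ 2 + 384) ^ M ≤ (192 * (s : ℝ) ^ 2 + 384) ^ N :=
      Real.rpow_le_rpow_of_exponent_le b1 (le_max_left _ _)
    have b3 : (192 * (s : ℝ) ^ 2 + 384) ^ N ≤ (576 * (s : ℝ) ^ 2) ^ N :=
      Real.rpow_le_rpow (by linarith) (by nlinarith) hN0
    have b4 : (576 * (s : ℝ) ^ 2) ^ N = 576 ^ N * (s : ℝ) ^ (2 * N) := by
      rw [Real.mul_rpow (by norm_num) (by positivity), Real.rpow_mul hsp.le]
      norm_num
    have b5 : K * (192 * (s : ℝ) ^ 2 + 384) ^ M ≤ |K| * (576 ^ N * (s : ℝ) ^ (2 * N)) := by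
      rw [← b4]
      exact mul_le_mul (le_abs_self K) (b2.trans b3) (by positivity) (abs_nonneg K)
    have b6 : (s : ℝ) ^ (15 - 2 * N) = (s : ℝ) ^ 15 / (s : ℝ) ^ (2 * N) := by
      rw [Real.rpow_sub hsp]
      norm_num
    rw [b6, div_le_iff₀ (by positivity)]
    nlinarith
  have ht : Tendsto (fun s : ℕ => (s : ℝ) ^ (15 - 2 * N)) atTop atTop :=
    (tendsto_rpow_atTop (by linarith)).comp tendsto_natCast_atTop_atTop
  obtain ⟨s, hs1, hs2⟩ := ((ht.eventually_gt_atTop (|K| * 576 ^ N)).and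
    (eventually_ge_atTop 5)).exists
  exact absurd (key s hs2) (not_le.2 hs1)

end Pool.Agent.Results.MP_a1107e_nt.AExponentLower
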